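import Mathlib

set_option autoImplicit false

/-!
# MP_960512_al : a finitely generated soluble group in `(𝔈𝔑,∞)*` which is not in `𝔈𝔑`

The group is a subgroup, generated by three elements, of `B ⋊ ℤ²`, where `B` is the group of all
functions `(n : ℕ) → ℤ² → DihedralGroup (2n+1)` and `ℤ²` acts by translation.
-/

open scoped commutatorElement

namespace Pool.Agent.Results.MP_960512_al.Counterexample

/-- `G ∈ 𝔈𝔑`: `G` has a normal subgroup of finite exponent with nilpotent quotient. -/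
def EN (G : Type*) [Group G] : Prop :=
  ∃ K : Subgroup G, ∃ _ : K.Normal,
    (∃ e : ℕ, 0 < e ∧ ∀ k ∈ K, k ^ e = 1) ∧ Group.IsNilpotent (G ⧸ K)

/-- `G` has a soluble normal subgroup of finite index. -/
def SolubleByFinite (G : Type*) [Group G] : Prop :=
  ∃ N : Subgroup G, N.Normal ∧ N.FiniteIndex ∧ Group.IsSolvable N

/-- `G ∈ (𝔈𝔑,∞)*`: every infinite subset of `G` contains two distinct elements `x, y` with
`⟨x, y⁻¹xy⟩ ∈ 𝔈𝔑`. -/
def ENInfStar (G : Type*) [Group G] : Prop :=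
  ∀ S : Set G, S.Infinite → ∃ x ∈ S, ∃ y ∈ S, x ≠ y ∧
    EN (Subgroup.closure ({x, y⁻¹ * x * y} : Set G))

/-! ### The ambient group -/

abbrev Γ := Multiplicative (ℤ × ℤ)

abbrev D (n : ℕ) := DihedralGroup (2 * n + 1)

abbrev B := (n : ℕ) → Γ → D n

/-- translation action of `Γ` on `B` -/
def φ : Γ →* MulAut B where
  toFun g :=
    { toFun := fun b n d => b n (g⁻¹ * d)
      invFun := fun b n d => b n (g * d)
      left_inv := fun b => by funext n d; simp
      right_inv := fun b => by funext n d; simp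
      map_mul' := fun b c => by funext n d; simp }
  map_one' := by
    ext b n d
    simp
  map_mul' g h := by
    ext b n d
    simp [mul_assoc]

@[simp] lemma φ_apply (g : Γ) (b : B) (n : ℕ) (d : Γ) : φ g b n d = b n (g⁻¹ * d) := rfl

abbrev W := B ⋊[φ] Γ

/-- the points `(n+1, (n+1)²)` -/
def pt (n : ℕ) : Γ := Multiplicative.ofAdd ((n : ℤ) + 1, ((n : ℤ) + 1) ^ 2)

open Classical in
/-- the base element -/
noncomputable def a : B := fun n d =>
  if d = 1 then DihedralGroup.sr 1 else if d * pt n = 1 then DihedralGroup.sr 0 else 1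

/-- local subgroups -/
def loc (P : Set Γ) (n : ℕ) (d : Γ) : Subgroup (D n) :=
  Subgroup.closure {x | (x = DihedralGroup.sr 1 ∧ d ∈ P) ∨ (x = DihedralGroup.sr 0 ∧ d * pt n ∈ P)}

/-- the subgroup of `B` of functions with all values in the local subgroups -/
def L (P : Set Γ) : Subgroup B where
  carrier := {b | ∀ n d, b n d ∈ loc P n d}
  mul_mem' := fun hx hy n d => (loc P n d).mul_mem (hx n d) (hy n d)
  one_mem' := fun n d => (loc P n d).one_mem
  inv_mem' := fun hx n d => (loc P n d).inv_mem (hx n d)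

lemma mem_L {P : Set Γ} {b : B} : b ∈ L P ↔ ∀ n d, b n d ∈ loc P n d := Iff.rfl

lemma loc_mono {P Q : Set Γ} (h : P ⊆ Q) (n : ℕ) (d : Γ) : loc P n d ≤ loc Q n d := by
  apply Subgroup.closure_mono
  rintro x (⟨hx, hd⟩ | ⟨hx, hd⟩)
  · exact Or.inl ⟨hx, h hd⟩
  · exact Or.inr ⟨hx, h hd⟩

lemma L_mono {P Q : Set Γ} (h : P ⊆ Q) : L P ≤ L Q := fun _ hb n d => loc_mono h n d (hb n d)

lemma a_mem : a ∈ L {1} := by
  intro n d
  unfold a
  split_ifs with h1 h2
  · exact Subgroup.subset_closure (Or.inl ⟨rfl, h1⟩)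
  · exact Subgroup.subset_closure (Or.inr ⟨rfl, h2⟩)
  · exact Subgroup.one_mem _

lemma φ_mem {P Q : Set Γ} {g : Γ} {b : B} (hb : b ∈ L P) (h : ∀ p ∈ P, g * p ∈ Q) :
    φ g b ∈ L Q := by
  intro n d
  rw [φ_apply]
  have h1 := hb n (g⁻¹ * d)
  refine (Subgroup.closure_mono ?_) h1
  rintro x (⟨hx, hd⟩ | ⟨hx, hd⟩)
  · left
    refine ⟨hx, ?_⟩
    have := h _ hd
    simpa using this
  · right
    refine ⟨hx, ?_⟩
    have := h _ hd
    simpa [mul_assoc] using this

/-! ### Finite exponent -/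

lemma finite_line (c g : Γ) : {n : ℕ | ∃ k : ℤ, pt n = c * g ^ k}.Finite := by
  obtain ⟨c1, c2⟩ := c
  obtain ⟨u, v⟩ := g
  have key : ∀ n : ℕ, (∃ k : ℤ, pt n = (Multiplicative.ofAdd (c1, c2) : Γ) *
      (Multiplicative.ofAdd (u, v) : Γ) ^ k) →
      ∃ k : ℤ, (n : ℤ) + 1 = c1 + k * u ∧ ((n : ℤ) + 1) ^ 2 = c2 + k * v := by
    rintro n ⟨k, hk⟩
    refine ⟨k, ?_⟩
    have h2 := congrArg Multiplicative.toAdd hk
    simp only [pt, toAdd_ofAdd, toAdd_mul, toAdd_zpow] at h2
    have h3 := congrArg Prod.fst h2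
    have h4 := congrArg Prod.snd h2
    simp at h3 h4
    exact ⟨h3, h4⟩
  refine Set.Finite.subset (Set.finite_Iic (c1.natAbs + (v * c1 - u * c2).natAbs + v.natAbs)) ?_
  intro n hn
  obtain ⟨k, h1, h2⟩ := key n hn
  simp only [Set.mem_Iic]
  by_cases hu : u = 0
  · subst hu
    have : (n : ℤ) + 1 = c1 := by simpa using h1
    omega
  · -- u m² - v m + (v c1 - u c2) = 0
    have h3 : u * ((n : ℤ) + 1) ^ 2 - v * ((n : ℤ) + 1) + (v * c1 - u * c2) = 0 := by
      rw [h2]
      have : v * ((n : ℤ) + 1) = v * (c1 + k * u) := by rw [h1]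
      rw [this]; ring
    set w := v * c1 - u * c2 with hw
    by_cases hw0 : w = 0
    · rw [hw0] at h3
      have h4 : ((n : ℤ) + 1) * (u * ((n : ℤ) + 1) - v) = 0 := by linarith [h3]
      rcases mul_eq_zero.1 h4 with h5 | h5
      · omega
      · have h6 : v = u * ((n : ℤ) + 1) := by linarith
        have h7 : v.natAbs = u.natAbs * (n + 1) := by
          rw [h6, Int.natAbs_mul]
          congr 1
        have h8 : 1 ≤ u.natAbs := Int.natAbs_pos.2 hu
        have : n + 1 ≤ v.natAbs := by rw [h7]; nlinarith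
        omega
    · have h4 : w = ((n : ℤ) + 1) * (v - u * ((n : ℤ) + 1)) := by linarith [h3]
      have h5 : w.natAbs = (n + 1) * (v - u * ((n : ℤ) + 1)).natAbs := by
        conv_lhs => rw [h4]
        rw [Int.natAbs_mul]
        congr 1
      have h6 : 1 ≤ (v - u * ((n : ℤ) + 1)).natAbs := by
        rcases Nat.eq_zero_or_pos (v - u * ((n : ℤ) + 1)).natAbs with h | h
        · rw [h] at h5
          simp at h5
          exact absurd h5 hw0
        · exact h
      have : n + 1 ≤ w.natAbs := by rw [h5]; nlinarith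
      omega

/-- the union of the cosets of `⟨g⟩` through `F` -/
def lines (F : Set Γ) (g : Γ) : Set Γ := {p | ∃ f ∈ F, ∃ k : ℤ, p = f * g ^ k}

lemma finite_bad {F : Set Γ} (hF : F.Finite) (g : Γ) :
    {n : ℕ | ∃ d, d ∈ lines F g ∧ d * pt n ∈ lines F g}.Finite := by
  have h1 : (⋃ f ∈ F, ⋃ f' ∈ F, {n : ℕ | ∃ k : ℤ, pt n = (f⁻¹ * f') * g ^ k}).Finite :=
    hF.biUnion fun f _ => hF.biUnion fun f' _ => finite_line _ _
  refine h1.subset ?_
  rintro n ⟨d, ⟨f, hf, k, hk⟩, ⟨f', hf', k', hk'⟩⟩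
  simp only [Set.mem_iUnion]
  refine ⟨f, hf, f', hf', k' - k, ?_⟩
  have : pt n = d⁻¹ * (f' * g ^ k') := by rw [← hk']; simp
  rw [this, hk, zpow_sub]
  rw [mul_inv]
  -- commutative rearrangement
  have : ∀ x y z w : Γ, x⁻¹ * y⁻¹ * (z * w) = x⁻¹ * z * (w * y⁻¹) := by
    intro x y z w
    simp only [mul_comm, mul_left_comm, mul_assoc]
  exact this _ _ _ _

lemma pow_dih (n : ℕ) (x : D n) : x ^ (2 * (2 * n + 1)) = 1 := by
  have : Fintype.card (D n) = 2 * (2 * n + 1) := DihedralGroup.card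
  rw [← this]
  exact pow_card_eq_one

lemma sq_of_mem_loc {P : Set Γ} {n : ℕ} {d : Γ} (h : ¬ (d ∈ P ∧ d * pt n ∈ P)) {x : D n}
    (hx : x ∈ loc P n d) : x ^ 2 = 1 := by
  have key : ∃ i : ZMod (2 * n + 1), loc P n d ≤ Subgroup.zpowers (DihedralGroup.sr i) := by
    by_cases h1 : d ∈ P
    · refine ⟨1, (Subgroup.closure_le _).2 ?_⟩
      rintro y (⟨hy, -⟩ | ⟨-, hy⟩)
      · rw [hy]; exact Subgroup.mem_zpowers _
      · exact absurd ⟨h1, hy⟩ h
    · refine ⟨0, (Subgroup.closure_le _).2 ?_⟩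
      rintro y (⟨-, hy⟩ | ⟨hy, -⟩)
      · exact absurd hy h1
      · rw [hy]; exact Subgroup.mem_zpowers _
  obtain ⟨i, hi⟩ := key
  obtain ⟨k, hk⟩ := Subgroup.mem_zpowers_iff.1 (hi hx)
  have h2 : (DihedralGroup.sr i : D n) ^ 2 = 1 := by
    rw [pow_two]
    simp
  rw [← hk]
  calc ((DihedralGroup.sr i : D n) ^ k) ^ 2 = ((DihedralGroup.sr i : D n) ^ 2) ^ k := by
        rw [← zpow_natCast, ← zpow_natCast, zpow_comm]
    _ = 1 := by rw [h2, one_zpow]

lemma exponent_L {F : Set Γ} (hF : F.Finite) (g : Γ) :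
    ∃ e : ℕ, 0 < e ∧ ∀ b ∈ L (lines F g), b ^ e = 1 := by
  classical
  have hfin := finite_bad hF g
  refine ⟨2 * ∏ n ∈ hfin.toFinset, (2 * n + 1), ?_, ?_⟩
  · apply Nat.mul_pos (by norm_num)
    exact Finset.prod_pos fun n _ => by omega
  · intro b hb
    funext n d
    show (b n d) ^ _ = 1
    by_cases hn : n ∈ hfin.toFinset
    · obtain ⟨m, hm⟩ := Finset.dvd_prod_of_mem (fun n => 2 * n + 1) hn
      have : (2 * ∏ n ∈ hfin.toFinset, (2 * n + 1)) = (2 * (2 * n + 1)) * m := by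
        rw [hm]; ring
      rw [this, pow_mul, pow_dih, one_pow]
    · have h2 : ¬ (d ∈ lines F g ∧ d * pt n ∈ lines F g) := by
        intro h
        apply hn
        rw [Set.Finite.mem_toFinset]
        exact ⟨d, h⟩
      rw [pow_mul, sq_of_mem_loc h2 (hb n d), one_pow]

/-! ### The group -/

/-- elements of `W` with `B`-part supported (in the sense of `L`) on a finite set -/
def fin : Subgroup W where
  carrier := {w | ∃ F : Set Γ, F.Finite ∧ w.left ∈ L F}
  mul_mem' := by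
    rintro x y ⟨F, hF, hx⟩ ⟨F', hF', hy⟩
    refine ⟨F ∪ (fun p => x.right * p) '' F', hF.union (hF'.image _), ?_⟩
    rw [SemidirectProduct.mul_left]
    refine Subgroup.mul_mem _ (L_mono Set.subset_union_left hx) (φ_mem hy ?_)
    intro p hp
    exact Or.inr ⟨p, hp, rfl⟩
  one_mem' := ⟨∅, Set.finite_empty, Subgroup.one_mem _⟩
  inv_mem' := by
    rintro x ⟨F, hF, hx⟩
    refine ⟨(fun p => x.right⁻¹ * p) '' F, hF.image _, ?_⟩
    rw [SemidirectProduct.inv_left]
    refine φ_mem (Subgroup.inv_mem _ hx) ?_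
    intro p hp
    exact ⟨p, hp, rfl⟩

/-- generators of `ℤ²` -/
def s : Γ := Multiplicative.ofAdd (1, 0)
def t : Γ := Multiplicative.ofAdd (0, 1)

/-- the counterexample -/
def G : Subgroup W :=
  Subgroup.closure {SemidirectProduct.inl a, SemidirectProduct.inr s, SemidirectProduct.inr t}

lemma G_le : G ≤ fin := by
  refine (Subgroup.closure_le _).2 ?_
  rintro x (rfl | rfl | rfl)
  · exact ⟨{1}, Set.finite_singleton _, a_mem⟩
  · exact ⟨∅, Set.finite_empty, by simp⟩
  · exact ⟨∅, Set.finite_empty, by simp⟩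

lemma inr_mem (g : Γ) : (SemidirectProduct.inr g : W) ∈ G := by
  have hs : (SemidirectProduct.inr s : W) ∈ G := Subgroup.subset_closure (by simp)
  have ht : (SemidirectProduct.inr t : W) ∈ G := Subgroup.subset_closure (by simp)
  have hg : g = s ^ (Multiplicative.toAdd g).1 * t ^ (Multiplicative.toAdd g).2 := by
    apply Multiplicative.toAdd.injective
    rw [toAdd_mul, toAdd_zpow, toAdd_zpow]
    simp [s, t]
  rw [hg, map_mul, map_zpow, map_zpow]
  exact G.mul_mem (G.zpow_mem hs _) (G.zpow_mem ht _)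

lemma a_mem_G : (SemidirectProduct.inl a : W) ∈ G := Subgroup.subset_closure (by simp)

/-- the subgroup `L(F⟨g⟩) ⋊ ⟨g⟩` -/
def LG (F : Set Γ) (g : Γ) : Subgroup W where
  carrier := {w | w.left ∈ L (lines F g) ∧ w.right ∈ Subgroup.zpowers g}
  mul_mem' := by
    rintro x y ⟨hx1, hx2⟩ ⟨hy1, hy2⟩
    refine ⟨?_, ?_⟩
    · rw [SemidirectProduct.mul_left]
      refine Subgroup.mul_mem _ hx1 (φ_mem hy1 ?_)
      rintro p ⟨f, hf, k, hk⟩
      obtain ⟨j, hj⟩ := Subgroup.mem_zpowers_iff.1 hx2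
      refine ⟨f, hf, j + k, ?_⟩
      rw [hk, ← hj, zpow_add]
      exact mul_left_comm _ _ _
    · rw [SemidirectProduct.mul_right]
      exact Subgroup.mul_mem _ hx2 hy2
  one_mem' := ⟨Subgroup.one_mem _, Subgroup.one_mem _⟩
  inv_mem' := by
    rintro x ⟨hx1, hx2⟩
    refine ⟨?_, ?_⟩
    · rw [SemidirectProduct.inv_left]
      refine φ_mem (Subgroup.inv_mem _ hx1) ?_
      rintro p ⟨f, hf, k, hk⟩
      obtain ⟨j, hj⟩ := Subgroup.mem_zpowers_iff.1 hx2
      refine ⟨f, hf, -j + k, ?_⟩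
      rw [hk, ← hj, zpow_add, zpow_neg]
      exact mul_left_comm _ _ _
    · rw [SemidirectProduct.inv_right]
      exact Subgroup.inv_mem _ hx2

lemma subset_lines (F : Set Γ) (g : Γ) : F ⊆ lines F g := fun f hf => ⟨f, hf, 0, by simp⟩

/-- a subgroup of `W` inside `LG F g`, `F` finite, is in `𝔈𝔑` -/
lemma EN_of_hom {H : Type*} [Group H] (f : H →* W) (hinj : Function.Injective f) {F : Set Γ}
    (hF : F.Finite) (g : Γ) (hH : ∀ h, f h ∈ LG F g) : EN H := by
  let ρ : H →* Γ := (SemidirectProduct.rightHom (φ := φ)).comp f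
  refine ⟨ρ.ker, inferInstance, ?_, ?_⟩
  · obtain ⟨e, he, hb⟩ := exponent_L hF g
    refine ⟨e, he, ?_⟩
    intro k hk
    apply hinj
    rw [map_pow, map_one]
    have hk' : (f k).right = 1 := hk
    have h1 : f k = SemidirectProduct.inl (f k).left := by
      ext1
      · simp
      · simpa using hk'
    rw [h1, ← map_pow, hb _ (hH k).1, map_one]
  · have e := QuotientGroup.quotientKerEquivRange ρ
    have : Group.IsNilpotent ρ.range := inferInstance
    exact Group.nilpotent_of_mulEquiv e.symm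

/-- all `⟨x, y⁻¹xy⟩` are in `𝔈𝔑` -/
lemma EN_closure (x y : G) : EN (Subgroup.closure ({x, y⁻¹ * x * y} : Set G)) := by
  obtain ⟨F, hF, h1⟩ := G_le x.2
  obtain ⟨F', hF', h2⟩ := G_le (y⁻¹ * x * y).2
  refine EN_of_hom (G.subtype.comp (Subgroup.subtype _)) ?_ (hF.union hF') (x : W).right ?_
  · exact (Subgroup.subtype_injective _).comp (Subgroup.subtype_injective _)
  · rintro ⟨h, hh⟩
    have : Subgroup.closure ({x, y⁻¹ * x * y} : Set G) ≤
        (LG (F ∪ F') (x : W).right).comap G.subtype := by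
      refine (Subgroup.closure_le _).2 ?_
      rintro z (rfl | rfl)
      · refine ⟨?_, ?_⟩
        · exact L_mono (Set.subset_union_left.trans (subset_lines _ _)) h1
        · exact Subgroup.mem_zpowers _
      · refine ⟨?_, ?_⟩
        · exact L_mono (Set.subset_union_right.trans (subset_lines _ _)) h2
        · have : ((G.subtype (y⁻¹ * x * y)) : W).right = (x : W).right := by
            simp [mul_comm]
          rw [this]
          exact Subgroup.mem_zpowers _
    exact this hh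

/-! ### Solubility -/

lemma derived_D (n : ℕ) : derivedSeries (D n) 2 = ⊥ := by
  let R : Subgroup (D n) :=
    { carrier := {x | ∃ i, x = DihedralGroup.r i}
      mul_mem' := by rintro _ _ ⟨i, rfl⟩ ⟨j, rfl⟩; exact ⟨i + j, by simp⟩
      one_mem' := ⟨0, rfl⟩
      inv_mem' := by rintro _ ⟨i, rfl⟩; exact ⟨-i, by simp⟩ }
  have h1 : derivedSeries (D n) 1 ≤ R := by
    rw [derivedSeries_succ, Subgroup.commutator_le]
    rintro (i | i) - (j | j) -
    all_goals
      rw [commutatorElement_def]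
      simp only [DihedralGroup.inv_r, DihedralGroup.inv_sr, DihedralGroup.r_mul_r,
        DihedralGroup.r_mul_sr, DihedralGroup.sr_mul_r, DihedralGroup.sr_mul_sr]
      exact ⟨_, rfl⟩
  rw [derivedSeries_succ, eq_bot_iff]
  refine (Subgroup.commutator_mono h1 h1).trans ?_
  rw [Subgroup.commutator_le]
  rintro _ ⟨i, rfl⟩ _ ⟨j, rfl⟩
  rw [Subgroup.mem_bot, commutatorElement_eq_one_iff_mul_comm]
  simp [add_comm]

lemma derived_B : derivedSeries B 2 = ⊥ := by
  rw [eq_bot_iff]
  intro b hb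
  rw [Subgroup.mem_bot]
  funext n d
  let ev : B →* D n := (Pi.evalMonoidHom (fun _ : Γ => D n) d).comp
    (Pi.evalMonoidHom (fun n : ℕ => Γ → D n) n)
  have h1 : (derivedSeries B 2).map ev ≤ derivedSeries (D n) 2 :=
    map_derivedSeries_le_derivedSeries ev 2
  rw [derived_D] at h1
  have h2 : ev b ∈ (⊥ : Subgroup (D n)) := h1 (Subgroup.mem_map_of_mem ev hb)
  exact (Subgroup.mem_bot).1 h2

lemma derived_W (k : ℕ) :
    derivedSeries W (k + 1) ≤ (derivedSeries B k).map (SemidirectProduct.inl : B →* W) := by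
  induction k with
  | zero =>
    rw [derivedSeries_succ, Subgroup.commutator_le]
    intro x _ y _
    refine ⟨⁅x, y⁆.left, by simp, ?_⟩
    ext1
    · simp
    · simp [commutatorElement_def]
  | succ k ih =>
    rw [derivedSeries_succ (G := W) (k + 1), derivedSeries_succ (G := B) k,
      Subgroup.map_commutator]
    exact Subgroup.commutator_mono ih ih

lemma derived_G : derivedSeries G 3 = ⊥ := by
  have h1 : derivedSeries W 3 = ⊥ := by
    rw [eq_bot_iff]
    refine (derived_W 2).trans ?_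
    rw [derived_B, Subgroup.map_bot]
  have h2 : (derivedSeries G 3).map G.subtype ≤ ⊥ := by
    rw [← h1]
    exact map_derivedSeries_le_derivedSeries G.subtype 3
  rw [le_bot_iff, Subgroup.map_eq_bot_iff_of_injective _ G.subtype_injective] at h2
  exact h2

/-! ### `G` is not in `𝔈𝔑` -/

lemma a_at (n : ℕ) : a n 1 = DihedralGroup.sr 1 := by simp [a]

lemma pt_ne (n : ℕ) : (pt n)⁻¹ ≠ 1 := by
  intro h
  have h1 : pt n = 1 := by simpa using h
  have h2 := congrArg (fun p : Γ => (Multiplicative.toAdd p).1) h1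
  simp [pt] at h2
  omega

lemma a_at' (n : ℕ) : a n ((pt n)⁻¹ * 1) = DihedralGroup.sr 0 := by
  have := pt_ne n
  rw [mul_one]
  unfold a
  rw [if_neg this, if_pos (by simp)]

/-- iterated commutators -/
noncomputable def z (n : ℕ) : ℕ → B
  | 0 => φ (pt n) a
  | k + 1 => ⁅z n k, a⁆

lemma z_at (n k : ℕ) : ∃ u : ZMod (2 * n + 1), (u = 1 ∨ u = -1) ∧
    z n (k + 1) n 1 = DihedralGroup.r (u * 2 ^ (k + 1)) := by
  induction k with
  | zero =>
    have h : z n 1 n 1 = DihedralGroup.sr 0 * DihedralGroup.sr 1 * (DihedralGroup.sr 0)⁻¹ *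
        (DihedralGroup.sr 1)⁻¹ := by
      show (z n 0 n 1) * (a n 1) * (z n 0 n 1)⁻¹ * (a n 1)⁻¹ = _
      rw [a_at, show z n 0 n 1 = a n ((pt n)⁻¹ * 1) from rfl, a_at']
    refine ⟨1, Or.inl rfl, ?_⟩
    rw [zero_add, h]
    simp only [DihedralGroup.inv_sr, DihedralGroup.r_mul_sr, DihedralGroup.sr_mul_sr]
    congr 1
    ring
  | succ k ih =>
    obtain ⟨u, hu, h⟩ := ih
    have h' : z n (k + 2) n 1 = DihedralGroup.r (u * 2 ^ (k + 1)) * DihedralGroup.sr 1 *
        (DihedralGroup.r (u * 2 ^ (k + 1)))⁻¹ * (DihedralGroup.sr 1)⁻¹ := by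
      show (z n (k + 1) n 1) * (a n 1) * (z n (k + 1) n 1)⁻¹ * (a n 1)⁻¹ = _
      rw [a_at, h]
    refine ⟨u, hu, ?_⟩
    rw [h']
    simp only [DihedralGroup.inv_r, DihedralGroup.inv_sr,
      DihedralGroup.r_mul_sr, DihedralGroup.sr_mul_r, DihedralGroup.sr_mul_sr]
    congr 1
    ring

/-- the iterated commutators as elements of `G` -/
noncomputable def zz (n : ℕ) : ℕ → G
  | 0 => ⟨SemidirectProduct.inr (pt n), inr_mem _⟩ * ⟨SemidirectProduct.inl a, a_mem_G⟩ *
      ⟨SemidirectProduct.inr (pt n), inr_mem _⟩⁻¹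
  | k + 1 => ⁅zz n k, ⟨SemidirectProduct.inl a, a_mem_G⟩⁆

lemma zz_coe (n k : ℕ) : ((zz n k : G) : W) = SemidirectProduct.inl (z n k) := by
  induction k with
  | zero =>
    show (SemidirectProduct.inr (pt n) : W) * SemidirectProduct.inl a *
      (SemidirectProduct.inr (pt n))⁻¹ = SemidirectProduct.inl (φ (pt n) a)
    rw [SemidirectProduct.inl_aut, map_inv]
  | succ k ih =>
    show ((zz n k : G) : W) * SemidirectProduct.inl a * ((zz n k : G) : W)⁻¹ *
      (SemidirectProduct.inl a)⁻¹ = SemidirectProduct.inl ⁅z n k, a⁆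
    rw [ih, commutatorElement_def]
    simp only [map_mul, map_inv]

lemma pow_dihedral_r {m : ℕ} (i : ZMod m) (e : ℕ) :
    (DihedralGroup.r i) ^ e = DihedralGroup.r (i * (e : ZMod m)) := by
  induction e with
  | zero => simp
  | succ e ih =>
    rw [pow_succ, ih, DihedralGroup.r_mul_r]
    congr 1
    push_cast
    ring

lemma not_EN : ¬ EN G := by
  rintro ⟨M, hM, ⟨e, he, hexp⟩, hnil⟩
  obtain ⟨c, hc⟩ := Subgroup.nilpotent_iff_lowerCentralSeries.1 hnil
  -- the iterated commutators lie in the lower central series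
  have hz : ∀ k, QuotientGroup.mk' M (zz e k) ∈ (⊤ : Subgroup (G ⧸ M)).lowerCentralSeries k := by
    intro k
    induction k with
    | zero => simp
    | succ k ih =>
      rw [Subgroup.lowerCentralSeries_succ]
      show QuotientGroup.mk' M ⁅zz e k, ⟨SemidirectProduct.inl a, a_mem_G⟩⁆ ∈ _
      rw [map_commutatorElement]
      exact Subgroup.commutator_mem_commutator ih (Subgroup.mem_top _)
  have hz' := hz (c + 1)
  have hbot : (⊤ : Subgroup (G ⧸ M)).lowerCentralSeries (c + 1) = ⊥ :=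
    le_bot_iff.1 (hc ▸ Subgroup.lowerCentralSeries_antitone _ (Nat.le_succ c))
  rw [hbot, Subgroup.mem_bot] at hz'
  have hm : zz e (c + 1) ∈ M := (QuotientGroup.eq_one_iff _).1 hz'
  have h1 := congrArg (fun w : G => (w : W)) (hexp _ hm)
  simp only [Subgroup.coe_pow, Subgroup.coe_one, zz_coe] at h1
  rw [← map_pow, ← map_one SemidirectProduct.inl] at h1
  have h2 := SemidirectProduct.inl_injective h1
  have h3 := congrFun (congrFun h2 e) 1
  obtain ⟨u, hu, h⟩ := z_at e c
  have h4 : (DihedralGroup.r (u * 2 ^ (c + 1)) : D e) ^ e = 1 := by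
    rw [← h]
    exact h3
  rw [pow_dihedral_r, DihedralGroup.one_def] at h4
  have h5 : u * 2 ^ (c + 1) * (e : ZMod (2 * e + 1)) = 0 := by
    injection h4
  have h6 : ((2 ^ (c + 1) * e : ℕ) : ZMod (2 * e + 1)) = 0 := by
    push_cast
    rcases hu with rfl | rfl
    · simpa using h5
    · have : -(2 ^ (c + 1) * (e : ZMod (2 * e + 1))) = 0 := by
        rw [← h5]; ring
      simpa using this
  rw [ZMod.natCast_eq_zero_iff] at h6
  have h7 : Nat.Coprime (2 * e + 1) (2 ^ (c + 1)) := by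
    apply Nat.Coprime.pow_right
    rw [Nat.coprime_two_right, Nat.odd_iff]
    omega
  have h8 := h7.dvd_of_dvd_mul_left h6
  have h9 := Nat.le_of_dvd he h8
  omega

/-- There is a finitely generated soluble group `G` (of derived length at most `3`) such that
`⟨x, y⁻¹xy⟩ ∈ 𝔈𝔑` for **all** `x, y ∈ G`, in particular `G ∈ (𝔈𝔑,∞)*`, but `G ∉ 𝔈𝔑`. -/
theorem result : ∃ (G : Type) (_ : Group G), Group.FG G ∧ derivedSeries G 3 = ⊥ ∧
    SolubleByFinite G ∧ (∀ x y : G, EN (Subgroup.closure ({x, y⁻¹ * x * y} : Set G))) ∧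
    ENInfStar G ∧ ¬ EN G := by
  refine ⟨G, inferInstance, ?_, derived_G, ?_, EN_closure, ?_, not_EN⟩
  · show Group.FG (Subgroup.closure _)
    infer_instance
  · have : Group.IsSolvable G := ⟨⟨3, derived_G⟩⟩
    exact ⟨⊤, inferInstance, inferInstance, inferInstance⟩
  · intro S hS
    obtain ⟨x, hx, y, hy, hxy⟩ := hS.nontrivial
    exact ⟨x, hx, y, hy, hxy, EN_closure x y⟩

end Pool.Agent.Results.MP_960512_al.Counterexample
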